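import Pool.Agent.helper3.DP.SpecG1
import Pool.Agent.helper96.DP.Basic

/-!
# G2: the inequality from the exploration of the interface
-/

namespace DP

open MeasureTheory

/-- The even point near `v`. -/
def G2_ev (v : V) : V := (v.1 - v.1 % 2, v.2 - v.2 % 2)

theorem G2_ev_sd (v : V) : sd (G2_ev v) v ≤ 1 := by
  unfold sd G2_ev
  simp only
  omega

theorem G2_ev_even (v : V) : Even (G2_ev v).1 ∧ Even (G2_ev v).2 := by
  unfold G2_ev
  simp only [Int.even_iff]
  omega

theorem G2 (hBtree : Btree_stmt) (hGV3 : GV3_stmt) (hG1R : G1R_stmt) (hG1D : G1D_stmt)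
    (hG1P : G1P_stmt) (hG1S : G1S_stmt) (hGPV : GPV_stmt) (hGFM : GFM_stmt) (hGTR : GTR_stmt)
    (hGLF : GLF_stmt) : G2_stmt := by
  have hP1 : IsProbabilityMeasure P1 := by
    unfold P1
    infer_instance
  obtain ⟨J, hJ, c₁, hc₁, t₀, hvar⟩ := hGV3
  refine ⟨(16 * 2 ^ J) ^ 2 / c₁, by positivity, max t₀ 2, ?_⟩
  intro m L κ hL hm hmL hκ hslit
  have hL2 : 2 ≤ L := le_of_max_le_right hL
  have hLt : t₀ ≤ L := le_of_max_le_left hL
  have h2L : 4 ≤ 2 ^ L := by
    calc 4 = 2 ^ 2 := by norm_num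
      _ ≤ 2 ^ L := Nat.pow_le_pow_right (by norm_num) hL2
  obtain ⟨s, hs⟩ : ∃ s : ℕ, s = 2 ^ L := ⟨_, rfl⟩
  rw [← hs] at h2L hmL
  set t := 2 ^ (L + 1) with ht
  have hts : t = 2 * s := by rw [ht, pow_succ, hs]; ring
  have ht8 : 8 ∣ t := by
    rw [ht]
    exact (pow_dvd_pow 2 (show 3 ≤ L + 1 by omega))
  have ht0 : t₀ ≤ t := by
    have : L + 1 < 2 ^ (L + 1) := Nat.lt_two_pow_self
    omega
  set N := 2 ^ J * t with hN
  have h2J : 8 ≤ 2 ^ J := by
    calc 8 = 2 ^ 3 := by norm_num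
      _ ≤ 2 ^ J := Nat.pow_le_pow_right (by norm_num) hJ
  have hNt : 8 * t ≤ N := Nat.mul_le_mul_right _ h2J
  set L₀ : Finset V := Finset.Icc (-((4 * N - t : ℕ) : ℤ)) (4 * N - t : ℕ) ×ˢ
    Finset.Icc (-((4 * N - t : ℕ) : ℤ)) (4 * N - t : ℕ) with hL₀
  have hmemL : ∀ v : V, v ∈ L₀ ↔ sd 0 v ≤ 4 * N - t := by
    intro v
    rw [sd_le_iff, hL₀, Finset.mem_product, Finset.mem_Icc, Finset.mem_Icc]
    simp only [Prod.fst_zero, Prod.snd_zero, zero_sub, zero_add]
  have hball : ∀ v ∈ L₀, ∀ w, sd (G2_ev v) w ≤ 2 ^ L → -(4 * N : ℤ) < w.1 ∧ w.1 < 4 * N ∧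
      -(4 * N : ℤ) < w.2 ∧ w.2 < 4 * N := by
    intro v hv w hw
    rw [hmemL] at hv
    rw [← hs] at hw
    have h1 := G2_ev_sd v
    unfold sd at hv hw h1
    simp only [Prod.fst_zero, Prod.snd_zero] at hv
    omega
  have hkey := hBtree (DqF N) L₀ (gnext N) (fq N) κ (hG1R N).1 ?_ hκ (hG1R N).2.1 (hGLF N).1
    (fun b b' h => hG1D N b b' h) ?_
  · have hv := hvar t L₀ ht0 ht8 ?_ ?_
    · have hsame : ∀ b, cpr L₀ (fq N) b = ∫ b', (fq N).indicator (1 : (V → Bool) → ℝ)
          (fun w => if w ∈ L₀ then b w else b' w) ∂P1 := by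
        intro b
        unfold cpr glue
        congr 1
      simp_rw [← hN, hsame] at hv
      have h1 := hv.trans hkey
      have hpiv : ∀ v ∈ L₀, Pr (Piv {v} (fq N)) ≤ Pr (Ev fun c => four c 0 m (2 ^ L)) := by
        intro v hv
        rw [← (hGTR (G2_ev v) m (2 ^ L) (G2_ev_even v).1 (G2_ev_even v).2).1]
        refine measureReal_mono ?_
        intro b hb
        have h2 := hGPV b {v} (G2_ev v) 1 (2 ^ L) (-(4 * N : ℤ)) (4 * N) (-(4 * N : ℤ)) (4 * N)
          (by
            rintro w rfl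
            exact G2_ev_sd w) (by omega) (by
            intro w hw
            have := hball v hv w hw
            exact ⟨this.1, this.2.1, this.2.2.1.le, this.2.2.2.le⟩) hb
        exact (hGFM (col b) (G2_ev v) 2 m (2 ^ L) (2 ^ L) hm (by omega) le_rfl).2.1 h2
      have hsum : ∑ v ∈ L₀, Pr (Piv {v} (fq N)) ≤
          L₀.card * Pr (Ev fun c => four c 0 m (2 ^ L)) := by
        have := Finset.sum_le_card_nsmul L₀ _ _ hpiv
        rwa [nsmul_eq_mul] at this
      have hcard : (L₀.card : ℝ) ≤ (16 * 2 ^ J) ^ 2 * (2 ^ L : ℝ) ^ 2 := by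
        have e1 : L₀.card ≤ (8 * N) ^ 2 := by
          rw [hL₀, Finset.card_product, Int.card_Icc, sq]
          have : ((4 * N - t : ℕ) + 1 - -((4 * N - t : ℕ) : ℤ)).toNat ≤ 8 * N := by
            have : 0 < t := by omega
            omega
          exact Nat.mul_le_mul this this
        have e2 : ((8 * N) ^ 2 : ℕ) = ((16 * 2 ^ J) ^ 2 * (2 ^ L) ^ 2 : ℕ) := by
          rw [hN, ht, pow_succ]
          ring
        rw [e2] at e1
        calc (L₀.card : ℝ) ≤ (((16 * 2 ^ J) ^ 2 * (2 ^ L) ^ 2 : ℕ) : ℝ) := by exact_mod_cast e1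
          _ = _ := by push_cast; ring
      have hPr0 : 0 ≤ Pr (Ev fun c => four c 0 m (2 ^ L)) := measureReal_nonneg
      have h3 : c₁ ≤ κ * ((16 * 2 ^ J) ^ 2 * (2 ^ L : ℝ) ^ 2 *
          Pr (Ev fun c => four c 0 m (2 ^ L))) :=
        h1.trans (mul_le_mul_of_nonneg_left (hsum.trans
          (mul_le_mul_of_nonneg_right hcard hPr0)) hκ)
      have h4 : (16 * 2 ^ J) ^ 2 / c₁ * κ * (2 ^ L : ℝ) ^ 2 * Pr (Ev fun c => four c 0 m (2 ^ L)) =
          (κ * ((16 * 2 ^ J) ^ 2 * (2 ^ L : ℝ) ^ 2 *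
          Pr (Ev fun c => four c 0 m (2 ^ L)))) / c₁ := by ring
      rw [h4, le_div_iff₀ hc₁, one_mul]
      exact h3
    · intro v hv
      rw [Finset.mem_coe, hmemL]
      have : sd 0 v ≤ 4 * N - 2 * t := hv
      omega
    · intro v hv
      rw [Finset.mem_coe, hmemL] at hv
      exact hv
  · intro v hv
    rw [hmemL] at hv
    rw [DqF, Finset.mem_product, Finset.mem_Icc, Finset.mem_Icc]
    unfold sd at hv
    simp only [Prod.fst_zero, Prod.snd_zero] at hv
    omega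
  · intro b n v hv hvL
    have hb := hball v hvL
    refine le_trans (measureReal_mono ?_) (hslit (G2_ev v) (gsl N (run (gnext N) b n))
      (G2_ev_even v).1 (G2_ev_even v).2 ?_)
    · intro b' hb'
      refine hG1P N b b' n v (G2_ev v) m (2 ^ L) hv ?_ ?_ (by omega) hb
      · have : glue (run (gnext N) b n) b b' =
            (fun w => if w ∈ run (gnext N) b n then b w else b' w) := by
          funext w
          unfold glue
          by_cases hw : w ∈ run (gnext N) b n <;> simp [hw]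
        rw [this]
        exact hb'
      · have := G2_ev_sd v
        omega
    · intro R
      refine hG1S N b n v (G2_ev v) 2 R hv ?_ ?_
      · exact (hb v ((G2_ev_sd v).trans (by omega))).1
      · have := G2_ev_sd v
        omega

end DP
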